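import Mathlib

/-!
# MP_a14af5_co: the order polytope of the face lattice of a 13-gon is not Ehrhart-nonnegative
-/

set_option autoImplicit false

open Finset Polynomial
open scoped Pointwise

namespace Pool.Agent.Results.MP_a14af5_co.ThirteenGon

/-! ### Definitions -/

/-- The faces of a convex polygon with `n` vertices: the empty face, the vertices, the edges
(`edge i` joins the vertices `i` and `i + 1`, cyclically) and the polygon itself. -/
inductive Face (n : ℕ) where
  | empty : Face n
  | vertex : Fin n → Face n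
  | edge : Fin n → Face n
  | whole : Face n
  deriving DecidableEq, Fintype

/-- Inclusion of faces. -/
def Face.Le {n : ℕ} [NeZero n] : Face n → Face n → Prop
  | .empty, _ => True
  | _, .whole => True
  | .vertex i, .vertex j => i = j
  | .vertex i, .edge j => i = j ∨ i = j + 1
  | .edge i, .edge j => i = j
  | _, _ => False

instance {n : ℕ} [NeZero n] : PartialOrder (Face n) where
  le := Face.Le
  le_refl a := by cases a <;> simp [Face.Le]
  le_trans a b c hab hbc := by
    change Face.Le a b at hab
    change Face.Le b c at hbc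
    cases a <;> cases b <;> cases c <;> simp_all [Face.Le]
  le_antisymm a b hab hba := by
    change Face.Le a b at hab
    change Face.Le b a at hba
    cases a <;> cases b <;> simp_all [Face.Le]

/-- The order polytope of a poset. -/
def orderPolytope (P : Type) [PartialOrder P] : Set (P → ℝ) :=
  {x | (∀ a, 0 ≤ x a ∧ x a ≤ 1) ∧ ∀ a b, a ≤ b → x a ≤ x b}

/-- `f` is the Ehrhart polynomial of `K`: for every natural number `t` its value at `t` is the
number of lattice points of the dilate `t K`. -/
def IsEhrhartPolynomial {P : Type} (K : Set (P → ℝ)) (f : ℚ[X]) : Prop :=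
  ∀ t : ℕ, f.eval (t : ℚ) = (Set.ncard {z : P → ℤ | (fun a => (z a : ℝ)) ∈ (t : ℝ) • K} : ℚ)

/-! ### Lattice points and monotone maps -/

section general

variable {P : Type} [PartialOrder P]

theorem mem_dilate (t : ℕ) (z : P → ℤ) : (fun a => (z a : ℝ)) ∈ (t : ℝ) • orderPolytope P ↔
    (∀ a, 0 ≤ z a ∧ z a ≤ t) ∧ ∀ a b, a ≤ b → z a ≤ z b := by
  rcases Nat.eq_zero_or_pos t with rfl | ht
  · have hne : (orderPolytope P).Nonempty := ⟨0, by simp [orderPolytope]⟩
    rw [Nat.cast_zero, Set.zero_smul_set hne, Set.mem_zero]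
    constructor
    · intro h
      have h0 : ∀ a, z a = 0 := fun a => by
        have := congrFun h a
        simpa using this
      simp [h0]
    · rintro ⟨h, -⟩
      funext a
      have := h a
      have h0 : z a = 0 := by
        simp only [Nat.cast_zero] at this
        omega
      simp [h0]
  · have ht' : (0 : ℝ) < t := by exact_mod_cast ht
    rw [Set.mem_smul_set_iff_inv_smul_mem₀ ht'.ne']
    simp only [orderPolytope, Set.mem_ofPred_eq, Pi.smul_apply, smul_eq_mul]
    constructor
    · rintro ⟨h1, h2⟩
      refine ⟨fun a => ?_, fun a b hab => ?_⟩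
      · obtain ⟨h3, h4⟩ := h1 a
        rw [inv_mul_le_iff₀ ht', mul_one] at h4
        have h5 : (0 : ℝ) ≤ z a := by
          by_contra hcon
          push Not at hcon
          have := mul_neg_of_pos_of_neg (inv_pos.2 ht') hcon
          linarith
        exact ⟨by exact_mod_cast h5, by exact_mod_cast h4⟩
      · have h3 := h2 a b hab
        have h4 := le_of_mul_le_mul_left h3 (inv_pos.2 ht')
        exact_mod_cast h4
    · rintro ⟨h1, h2⟩
      refine ⟨fun a => ?_, fun a b hab => ?_⟩
      · obtain ⟨h3, h4⟩ := h1 a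
        refine ⟨mul_nonneg (inv_pos.2 ht').le (by exact_mod_cast h3), ?_⟩
        rw [inv_mul_le_iff₀ ht', mul_one]
        exact_mod_cast h4
      · exact mul_le_mul_of_nonneg_left (by exact_mod_cast h2 a b hab) (inv_pos.2 ht').le

theorem ncard_eq (t : ℕ) :
    Set.ncard {z : P → ℤ | (fun a => (z a : ℝ)) ∈ (t : ℝ) • orderPolytope P}
      = Nat.card {f : P → Fin (t + 1) // Monotone f} := by
  rw [← Nat.card_coe_set_eq]
  apply Nat.card_congr
  refine ⟨fun z => ⟨fun a => ⟨(z.1 a).toNat, ?_⟩, ?_⟩, fun f => ⟨fun a => ((f.1 a : ℕ) : ℤ), ?_⟩,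
    ?_, ?_⟩
  · have h := ((mem_dilate t z.1).1 z.2).1 a
    omega
  · intro a b hab
    have h := ((mem_dilate t z.1).1 z.2).2 a b hab
    change (z.1 a).toNat ≤ (z.1 b).toNat
    omega
  · change (fun a => (((f.1 a : ℕ) : ℤ) : ℝ)) ∈ (t : ℝ) • orderPolytope P
    rw [mem_dilate]
    refine ⟨fun a => ⟨by positivity, ?_⟩, fun a b hab => ?_⟩
    · have := (f.1 a).2
      omega
    · have := f.2 hab
      exact_mod_cast this
  · intro z
    apply Subtype.ext
    funext a
    have h := ((mem_dilate t z.1).1 z.2).1 a
    change (((z.1 a).toNat : ℕ) : ℤ) = z.1 a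
    omega
  · intro f
    apply Subtype.ext
    funext a
    apply Fin.ext
    simp

open Classical in
/-- the number of surjective monotone maps onto a chain -/
noncomputable def surj (P : Type) [PartialOrder P] [Fintype P] (k : ℕ) : ℕ :=
  Fintype.card {g : P → Fin k // Monotone g ∧ Function.Surjective g}

open Classical in
theorem card_image [Fintype P] (m : ℕ) (S : Finset (Fin m)) :
    Fintype.card {f : P → Fin m // Monotone f ∧ Finset.univ.image f = S} = surj P S.card := by
  unfold surj
  symm
  apply Fintype.card_congr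
  let φ := S.orderIsoOfFin rfl
  refine ⟨fun g => ⟨fun a => (φ (g.1 a) : Fin m), ?_, ?_⟩,
    fun f => ⟨fun a => φ.symm ⟨f.1 a, ?_⟩, ?_, ?_⟩, ?_, ?_⟩
  · intro a b hab
    exact φ.monotone (g.2.1 hab)
  · ext x
    simp only [Finset.mem_image, Finset.mem_univ, true_and]
    constructor
    · rintro ⟨a, rfl⟩
      exact (φ (g.1 a)).2
    · intro hx
      obtain ⟨a, ha⟩ := g.2.2 (φ.symm ⟨x, hx⟩)
      refine ⟨a, ?_⟩
      rw [ha, OrderIso.apply_symm_apply]
  · have h := Finset.mem_image_of_mem f.1 (Finset.mem_univ a)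
    rw [f.2.2] at h
    exact h
  · intro a b hab
    apply φ.symm.monotone
    exact f.2.1 hab
  · intro y
    have h : (φ y : Fin m) ∈ Finset.univ.image f.1 := by
      rw [f.2.2]
      exact (φ y).2
    obtain ⟨a, -, ha⟩ := Finset.mem_image.1 h
    refine ⟨a, ?_⟩
    rw [OrderIso.symm_apply_eq]
    exact Subtype.ext ha
  · intro g
    apply Subtype.ext
    funext a
    simp
  · intro f
    apply Subtype.ext
    funext a
    simp

open Classical in
theorem card_mono [Fintype P] (m : ℕ) : Nat.card {f : P → Fin m // Monotone f}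
    = ∑ k ∈ range (Fintype.card P + 1), m.choose k * surj P k := by
  rw [Nat.card_eq_fintype_card]
  have h1 : Fintype.card {f : P → Fin m // Monotone f} = ∑ S : Finset (Fin m),
      Fintype.card {f : P → Fin m // Monotone f ∧ Finset.univ.image f = S} := by
    rw [← Fintype.card_sigma]
    apply Fintype.card_congr
    refine ⟨fun f => ⟨Finset.univ.image f.1, f.1, f.2, rfl⟩, fun f => ⟨f.2.1, f.2.2.1⟩, ?_, ?_⟩
    · intro f
      rfl
    · rintro ⟨S, f, hf, rfl⟩
      rfl
  rw [h1, Finset.sum_congr rfl fun S _ => card_image m S]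
  have h2 := Finset.sum_powerset_apply_card (fun k => surj P k) (x := (Finset.univ : Finset (Fin m)))
  rw [Finset.powerset_univ, Finset.card_univ, Fintype.card_fin] at h2
  rw [h2]
  simp only [smul_eq_mul]
  have h3 : ∀ k, Fintype.card P < k → surj P k = 0 := by
    intro k hk
    unfold surj
    rw [Fintype.card_eq_zero_iff]
    refine ⟨fun g => ?_⟩
    have := Fintype.card_le_of_surjective _ g.2.2
    rw [Fintype.card_fin] at this
    omega
  rcases le_total m (Fintype.card P) with h | h
  · apply Finset.sum_subset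
    · intro x hx
      simp only [Finset.mem_range] at hx ⊢
      omega
    · intro x _ hx
      simp only [Finset.mem_range, not_lt] at hx
      rw [Nat.choose_eq_zero_of_lt (by omega), zero_mul]
  · symm
    apply Finset.sum_subset
    · intro x hx
      simp only [Finset.mem_range] at hx ⊢
      omega
    · intro x _ hx
      simp only [Finset.mem_range, not_lt] at hx
      rw [h3 x (by omega), mul_zero]

/-- the number of lattice points of the dilates is a polynomial of degree at most `|P|` -/
theorem exists_poly [Fintype P] : ∃ f : ℚ[X], f.natDegree ≤ Fintype.card P ∧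
    ∀ t : ℕ, f.eval (t : ℚ) = Nat.card {f : P → Fin (t + 1) // Monotone f} := by
  refine ⟨∑ k ∈ range (Fintype.card P + 1), C ((surj P k : ℚ) / k.factorial) *
    (descPochhammer ℚ k).comp (X + 1), ?_, ?_⟩
  · apply Polynomial.natDegree_sum_le_of_forall_le
    intro k hk
    refine (Polynomial.natDegree_C_mul_le _ _).trans ?_
    rw [Polynomial.natDegree_comp, descPochhammer_natDegree]
    have : (X + 1 : ℚ[X]).natDegree = 1 := by
      have := Polynomial.natDegree_X_add_C (1 : ℚ)
      simpa using this
    rw [this, mul_one]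
    simp only [Finset.mem_range] at hk
    omega
  · intro t
    rw [card_mono, Polynomial.eval_finsetSum]
    push_cast
    apply Finset.sum_congr rfl
    intro k _
    rw [Polynomial.eval_mul, Polynomial.eval_C, Polynomial.eval_comp]
    have h1 : (X + 1 : ℚ[X]).eval (t : ℚ) = ((t + 1 : ℕ) : ℚ) := by simp
    rw [h1, descPochhammer_eval_eq_descFactorial, Nat.descFactorial_eq_factorial_mul_choose]
    push_cast
    have : (k.factorial : ℚ) ≠ 0 := by exact_mod_cast Nat.factorial_ne_zero k
    field_simp

end general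

/-! ### Counting for polygons -/

section crown

variable {n : ℕ} [NeZero n]

/-- pairs of a labelling of the vertices and one of the edges (turned upside down) -/
def Cr (n : ℕ) [NeZero n] (d : ℕ) : Type :=
  {xy : (Fin n → ℕ) × (Fin n → ℕ) //
    ∀ i, xy.1 i ≤ d ∧ xy.2 i ≤ xy.1 i ∧ xy.2 i ≤ xy.1 (i + 1)}

/-- the labelling of all faces -/
def lab {t : ℕ} (q : Σ d : Fin (t + 1), Fin (t + 1 - d) × Cr n d) : Face n → Fin (t + 1)
  | .empty => ⟨q.2.1, by have := q.2.1.2; omega⟩
  | .vertex i => ⟨q.2.1 + q.1 - q.2.2.1.1 i, by have := q.2.1.2; omega⟩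
  | .edge i => ⟨q.2.1 + q.1 - q.2.2.1.2 i, by have := q.2.1.2; omega⟩
  | .whole => ⟨q.2.1 + q.1, by have := q.2.1.2; omega⟩

theorem lab_mono {t : ℕ} (q : Σ d : Fin (t + 1), Fin (t + 1 - d) × Cr n d) : Monotone (lab q) := by
  intro a b hab
  change Face.Le a b at hab
  have h := q.2.2.2
  cases a with
  | empty =>
    cases b with
    | empty => exact le_rfl
    | vertex j =>
      change (q.2.1 : ℕ) ≤ q.2.1 + q.1 - q.2.2.1.1 j
      have := (h j).1
      omega
    | edge j =>
      change (q.2.1 : ℕ) ≤ q.2.1 + q.1 - q.2.2.1.2 j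
      have := h j
      omega
    | whole =>
      change (q.2.1 : ℕ) ≤ q.2.1 + q.1
      omega
  | vertex i =>
    cases b with
    | empty => exact hab.elim
    | vertex j =>
      have : i = j := hab
      rw [this]
    | edge j =>
      change (q.2.1 + q.1 - q.2.2.1.1 i : ℕ) ≤ q.2.1 + q.1 - q.2.2.1.2 j
      have h' := h j
      rcases hab with rfl | rfl <;> omega
    | whole =>
      change (q.2.1 + q.1 - q.2.2.1.1 i : ℕ) ≤ q.2.1 + q.1
      omega
  | edge i =>
    cases b with
    | empty => exact hab.elim
    | vertex j => exact hab.elim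
    | edge j =>
      have : i = j := hab
      rw [this]
    | whole =>
      change (q.2.1 + q.1 - q.2.2.1.2 i : ℕ) ≤ q.2.1 + q.1
      omega
  | whole =>
    cases b with
    | empty => exact hab.elim
    | vertex j => exact hab.elim
    | edge j => exact hab.elim
    | whole => exact le_rfl

theorem lab_bij (t : ℕ) : Function.Bijective (fun q : (Σ d : Fin (t + 1),
    Fin (t + 1 - d) × Cr n d) => (⟨lab q, lab_mono q⟩ : {f : Face n → Fin (t + 1) //
      Monotone f})) := by
  constructor
  · rintro ⟨d, a, ⟨⟨x, y⟩, hxy⟩⟩ ⟨d', a', ⟨⟨x', y'⟩, hxy'⟩⟩ h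
    have h1 := congrArg Subtype.val h
    have he : ∀ F, (lab (⟨d, a, ⟨⟨x, y⟩, hxy⟩⟩ : Σ d : Fin (t + 1), Fin (t + 1 - d) × Cr n d) F : ℕ)
        = lab (⟨d', a', ⟨⟨x', y'⟩, hxy'⟩⟩ : Σ d : Fin (t + 1), Fin (t + 1 - d) × Cr n d) F :=
      fun F => congrArg Fin.val (congrFun h1 F)
    have e0 : (a : ℕ) = a' := he .empty
    have e1 : (a + d : ℕ) = a' + d' := he .whole
    have ed : d = d' := by
      apply Fin.ext
      omega
    subst ed
    have ea : a = a' := Fin.ext e0
    subst ea
    have ex : x = x' := by
      funext i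
      have h2 : (a + d - x i : ℕ) = a + d - x' i := he (.vertex i)
      have h3 : x i ≤ d := (hxy i).1
      have h4 : x' i ≤ d := (hxy' i).1
      omega
    have ey : y = y' := by
      funext i
      have h2 : (a + d - y i : ℕ) = a + d - y' i := he (.edge i)
      have h3 : x i ≤ d := (hxy i).1
      have h4 : x' i ≤ d := (hxy' i).1
      have h5 : y i ≤ x i := (hxy i).2.1
      have h6 : y' i ≤ x' i := (hxy' i).2.1
      omega
    subst ex
    subst ey
    rfl
  · rintro ⟨f, hf⟩
    have h1 : ∀ i, f .empty ≤ f (.vertex i) := fun i => hf (show Face.Le _ _ from trivial)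
    have h2 : ∀ i, f (.vertex i) ≤ f (.edge i) := fun i => hf (show Face.Le _ _ from Or.inl rfl)
    have h3 : ∀ i, f (.vertex (i + 1)) ≤ f (.edge i) :=
      fun i => hf (show Face.Le _ _ from Or.inr rfl)
    have h4 : ∀ i, f (.edge i) ≤ f .whole := fun i => hf (show Face.Le _ _ from trivial)
    have h5 : f .empty ≤ f .whole := hf (show Face.Le _ _ from trivial)
    have g1 : ∀ i, (f .empty : ℕ) ≤ f (.vertex i) := h1
    have g2 : ∀ i, (f (.vertex i) : ℕ) ≤ f (.edge i) := h2
    have g3 : ∀ i, (f (.vertex (i + 1)) : ℕ) ≤ f (.edge i) := h3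
    have g4 : ∀ i, (f (.edge i) : ℕ) ≤ f .whole := h4
    have g5 : (f .empty : ℕ) ≤ f .whole := h5
    have g6 := (f .whole).2
    refine ⟨⟨⟨f .whole - f .empty, by omega⟩, ⟨f .empty, ?_⟩,
      ⟨(fun i => f .whole - f (.vertex i), fun i => f .whole - f (.edge i)), ?_⟩⟩, ?_⟩
    · change (f .empty : ℕ) < t + 1 - (f .whole - f .empty)
      omega
    · intro i
      change (f .whole - f (.vertex i) : ℕ) ≤ f .whole - f .empty ∧
        (f .whole - f (.edge i) : ℕ) ≤ f .whole - f (.vertex i) ∧
        (f .whole - f (.edge i) : ℕ) ≤ f .whole - f (.vertex (i + 1))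
      have := g1 i
      have := g2 i
      have := g3 i
      omega
    · apply Subtype.ext
      funext F
      apply Fin.ext
      cases F with
      | empty => rfl
      | vertex i =>
        change (f .empty + (f .whole - f .empty) - (f .whole - f (.vertex i)) : ℕ) = f (.vertex i)
        have := g1 i
        have := g2 i
        have := g4 i
        omega
      | edge i =>
        change (f .empty + (f .whole - f .empty) - (f .whole - f (.edge i)) : ℕ) = f (.edge i)
        have := g1 i
        have := g2 i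
        have := g4 i
        omega
      | whole =>
        change (f .empty + (f .whole - f .empty) : ℕ) = f .whole
        omega

/-- the labellings of the edges, given those of the vertices -/
def crMap (n : ℕ) [NeZero n] (d : ℕ) (q : Σ x : Fin n → Fin (d + 1),
    ∀ i, Fin (min (x i : ℕ) (x (i + 1)) + 1)) : Cr n d :=
  ⟨(fun i => q.1 i, fun i => q.2 i), fun i => by
    have h1 := (q.1 i).2
    have h2 := (q.2 i).2
    refine ⟨Nat.lt_succ_iff.1 h1, ?_, ?_⟩
    · change (q.2 i : ℕ) ≤ q.1 i
      omega
    · change (q.2 i : ℕ) ≤ q.1 (i + 1)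
      omega⟩

theorem crMap_bij (d : ℕ) : Function.Bijective (crMap n d) := by
  constructor
  · rintro ⟨x, y⟩ ⟨x', y'⟩ h
    have h1 := congrArg (fun z : Cr n d => z.1.1) h
    have h2 := congrArg (fun z : Cr n d => z.1.2) h
    have ex : x = x' := by
      funext i
      apply Fin.ext
      exact congrFun h1 i
    subst ex
    have ey : y = y' := by
      funext i
      apply Fin.ext
      exact congrFun h2 i
    subst ey
    rfl
  · rintro ⟨⟨x, y⟩, h⟩
    have h1 : ∀ i, x i ≤ d := fun i => (h i).1
    have h2 : ∀ i, y i ≤ x i := fun i => (h i).2.1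
    have h3 : ∀ i, y i ≤ x (i + 1) := fun i => (h i).2.2
    refine ⟨⟨fun i => ⟨x i, Nat.lt_succ_iff.2 (h1 i)⟩, fun i => ⟨y i, ?_⟩⟩, rfl⟩
    change y i < min (x i) (x (i + 1)) + 1
    have := h2 i
    have := h3 i
    omega

/-- the transfer matrix -/
def M (d : ℕ) : Matrix (Fin (d + 1)) (Fin (d + 1)) ℕ := fun u v => min (u : ℕ) v + 1

theorem card_Cr (d : ℕ) : Nat.card (Cr n d)
    = ∑ x : Fin n → Fin (d + 1), ∏ i, M d (x i) (x (i + 1)) := by
  rw [← Nat.card_congr (Equiv.ofBijective _ (crMap_bij (n := n) d)), Nat.card_sigma]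
  apply Finset.sum_congr rfl
  intro x _
  rw [Nat.card_pi]
  apply Finset.prod_congr rfl
  intro i _
  rw [Nat.card_fin]
  rfl

instance (d : ℕ) : Finite (Cr n d) :=
  Finite.of_equiv _ (Equiv.ofBijective _ (crMap_bij (n := n) d))

theorem card_maps (t : ℕ) : Nat.card {f : Face n → Fin (t + 1) // Monotone f}
    = ∑ d : Fin (t + 1), (t + 1 - d) * Nat.card (Cr n d) := by
  rw [← Nat.card_congr (Equiv.ofBijective _ (lab_bij (n := n) t)), Nat.card_sigma]
  apply Finset.sum_congr rfl
  intro d _
  rw [Nat.card_prod, Nat.card_fin]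

theorem path_sum {ι : Type} [Fintype ι] [DecidableEq ι] (A : Matrix ι ι ℕ) (k : ℕ) :
    ∀ h : ι → ι → ℕ, ∑ x : Fin (k + 1) → ι, (∏ i : Fin k, A (x i.castSucc) (x i.succ)) *
      h (x 0) (x (Fin.last k)) = ∑ u, ∑ v, (A ^ k) u v * h u v := by
  induction k with
  | zero =>
    intro h
    rw [← (Equiv.funUnique (Fin 1) ι).symm.sum_comp]
    apply Finset.sum_congr rfl
    intro u _
    simp [Matrix.one_apply, Finset.sum_ite_eq]
  | succ k ih =>
    intro h
    rw [← (Fin.consEquiv fun _ : Fin (k + 2) => ι).sum_comp, Fintype.sum_prod_type]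
    apply Finset.sum_congr rfl
    intro w _
    have h1 := ih fun u v => A w u * h w v
    have h2 : ∀ x : Fin (k + 1) → ι, (∏ i : Fin (k + 1),
        A ((Fin.cons w x : Fin (k + 2) → ι) i.castSucc) ((Fin.cons w x : Fin (k + 2) → ι) i.succ)) *
        h ((Fin.cons w x : Fin (k + 2) → ι) 0) ((Fin.cons w x : Fin (k + 2) → ι) (Fin.last (k + 1)))
        = (∏ i : Fin k, A (x i.castSucc) (x i.succ)) * (A w (x 0) * h w (x (Fin.last k))) := by
      intro x
      rw [Fin.prod_univ_succ]
      simp only [Fin.castSucc_zero, Fin.cons_zero, Fin.cons_succ, ← Fin.succ_castSucc]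
      rw [← Fin.succ_last, Fin.cons_succ]
      ring
    have h3 : ∀ x : Fin (k + 1) → ι, (Fin.consEquiv fun _ : Fin (k + 2) => ι) (w, x)
        = Fin.cons w x := fun x => rfl
    simp only [h3]
    rw [Finset.sum_congr rfl fun x _ => h2 x, h1, Finset.sum_comm]
    apply Finset.sum_congr rfl
    intro v _
    rw [pow_succ', Matrix.mul_apply, Finset.sum_mul]
    apply Finset.sum_congr rfl
    intro u _
    ring

theorem cyc_sum {ι : Type} [Fintype ι] [DecidableEq ι] (A : Matrix ι ι ℕ) (k : ℕ) :
    ∑ x : Fin (k + 1) → ι, ∏ i, A (x i) (x (i + 1)) = (A ^ (k + 1)).trace := by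
  have h := path_sum A k fun u v => A v u
  have h1 : ∀ x : Fin (k + 1) → ι, ∏ i, A (x i) (x (i + 1))
      = (∏ i : Fin k, A (x i.castSucc) (x i.succ)) * A (x (Fin.last k)) (x 0) := by
    intro x
    rw [Fin.prod_univ_castSucc]
    congr 1
    · apply Finset.prod_congr rfl
      intro i _
      rw [Fin.coeSucc_eq_succ]
    · rw [Fin.last_add_one]
  rw [Finset.sum_congr rfl fun x _ => h1 x, h, Matrix.trace]
  apply Finset.sum_congr rfl
  intro u _
  rw [Matrix.diag_apply, pow_succ, Matrix.mul_apply]

end crown

/-! ### Evaluation -/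

section eval

/-- the square root of the transfer matrix -/
def Q (d : ℕ) : Matrix (Fin (d + 1)) (Fin (d + 1)) ℕ :=
  fun u v => if d ≤ (u : ℕ) + v then 1 else 0

theorem M_eq (d : ℕ) : M d = Q d ^ 2 := by
  funext u w
  rw [pow_two, Matrix.mul_apply]
  have h1 : ∀ v : Fin (d + 1), Q d u v * Q d v w
      = (fun v : ℕ => if v ∈ Finset.Ico (d - min (u : ℕ) w) (d + 1) then 1 else 0) v := by
    intro v
    have hv := v.2
    have hu := u.2
    have hw := w.2
    simp only [Q, Finset.mem_Ico]
    by_cases h1 : d ≤ (u : ℕ) + v <;> by_cases h2 : d ≤ (v : ℕ) + w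
    · rw [if_pos h1, if_pos h2, if_pos (by omega)]
    · rw [if_pos h1, if_neg h2, if_neg (by omega)]
    · rw [if_neg h1, if_pos h2, if_neg (by omega)]
    · rw [if_neg h1, if_neg h2, if_neg (by omega)]
  rw [Finset.sum_congr rfl fun v _ => h1 v, Fin.sum_univ_eq_sum_range
    (fun v : ℕ => if v ∈ Finset.Ico (d - min (u : ℕ) w) (d + 1) then 1 else 0),
    Finset.sum_ite_mem]
  have h2 : Finset.range (d + 1) ∩ Finset.Ico (d - min (u : ℕ) w) (d + 1)
      = Finset.Ico (d - min (u : ℕ) w) (d + 1) := by
    ext x
    simp only [Finset.mem_inter, Finset.mem_range, Finset.mem_Ico]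
    omega
  rw [h2, Finset.sum_const, Nat.card_Ico]
  have hu := u.2
  have hw := w.2
  simp only [M, smul_eq_mul, mul_one]
  omega

/-- prefix sums -/
def pre : ℕ → List ℕ → List ℕ
  | _, [] => []
  | s, a :: l => (s + a) :: pre (s + a) l

/-- one application of `Q` -/
def step (l : List ℕ) : List ℕ := pre 0 l.reverse

theorem pre_ofFn (n : ℕ) : ∀ (g : Fin n → ℕ) (s : ℕ),
    pre s (List.ofFn g) = List.ofFn fun u => s + ∑ v, if v ≤ u then g v else 0 := by
  induction n with
  | zero =>
    intro g s
    simp [pre]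
  | succ n ih =>
    intro g s
    rw [List.ofFn_succ, pre, ih, List.ofFn_succ]
    congr 1
    · rw [Fin.sum_univ_succ]
      simp
    · congr 1
      funext u
      rw [Fin.sum_univ_succ (fun v => if v ≤ u.succ then g v else 0), if_pos (Fin.zero_le _)]
      simp only [Fin.succ_le_succ_iff]
      ring

theorem step_ofFn (d : ℕ) (f : Fin (d + 1) → ℕ) :
    step (List.ofFn f) = List.ofFn (Matrix.mulVec (Q d) f) := by
  have h1 : (List.ofFn f).reverse = List.ofFn fun v => f (Fin.rev v) := by
    apply List.ext_getElem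
    · simp
    · intro i hi1 hi2
      rw [List.getElem_reverse, List.getElem_ofFn, List.getElem_ofFn]
      congr 1
      apply Fin.ext
      rw [Fin.val_rev]
      simp only [List.length_ofFn]
      omega
  rw [step, h1, pre_ofFn]
  congr 1
  funext u
  rw [zero_add, Matrix.mulVec, dotProduct, ← Equiv.sum_comp Fin.revPerm (fun w => Q d u w * f w)]
  apply Finset.sum_congr rfl
  intro v _
  rw [Fin.revPerm_apply]
  have hv := v.2
  have hu := u.2
  have h2 : ((Fin.rev v : Fin (d + 1)) : ℕ) = d - v := by
    rw [Fin.val_rev]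
    omega
  simp only [Q, h2, ite_mul, one_mul, zero_mul]
  by_cases h3 : v ≤ u
  · have h4 : (v : ℕ) ≤ u := h3
    rw [if_pos h3, if_pos (by omega)]
  · have h4 : ¬ (v : ℕ) ≤ u := h3
    rw [if_neg h3, if_neg (by omega)]

theorem step_iterate (d k : ℕ) (f : Fin (d + 1) → ℕ) :
    step^[k] (List.ofFn f) = List.ofFn (Matrix.mulVec (Q d ^ k) f) := by
  induction k with
  | zero => simp
  | succ k ih =>
    rw [Function.iterate_succ_apply', ih, step_ofFn, Matrix.mulVec_mulVec, ← pow_succ']

/-- the trace of the 13th power of the transfer matrix, as a computation with lists -/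
def tr (d : ℕ) : ℕ := ((List.range (d + 1)).map fun u =>
  ((step^[13] ((List.range (d + 1)).map fun v => if v = u then 1 else 0)).map
    fun a => a * a).sum).sum

theorem Q_symm (d k : ℕ) (u v : Fin (d + 1)) : (Q d ^ k) u v = (Q d ^ k) v u := by
  have h : (Q d ^ k).transpose = Q d ^ k := by
    rw [Matrix.transpose_pow]
    congr 1
    funext u v
    simp only [Matrix.transpose_apply, Q, add_comm]
  exact congrFun (congrFun h v) u

theorem tr_eq (d : ℕ) : (M d ^ 13).trace = tr d := by
  rw [M_eq, ← pow_mul, show 2 * 13 = 13 + 13 from rfl, pow_add, Matrix.trace, tr]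
  have h1 : ∀ u : Fin (d + 1), (Q d ^ 13 * Q d ^ 13).diag u
      = (fun u : ℕ => ((step^[13] ((List.range (d + 1)).map fun v => if v = u then 1 else 0)).map
    fun a => a * a).sum) u := by
    intro u
    rw [Matrix.diag_apply, Matrix.mul_apply]
    have h2 : ((List.range (d + 1)).map fun v => if v = (u : ℕ) then 1 else 0)
        = List.ofFn fun v : Fin (d + 1) => if v = u then 1 else 0 := by
      rw [List.ofFn_eq_map, ← List.map_coe_finRange_eq_range, List.map_map]
      apply List.map_congr_left
      intro v _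
      simp only [Function.comp_apply, Fin.ext_iff]
    simp only
    rw [h2, step_iterate, List.map_ofFn, List.sum_ofFn]
    apply Finset.sum_congr rfl
    intro w _
    have h3 : Matrix.mulVec (Q d ^ 13) (fun v => if v = u then 1 else 0) w = (Q d ^ 13) w u := by
      rw [Matrix.mulVec, dotProduct]
      simp
    rw [Function.comp_apply, h3, Q_symm d 13 u w]
  rw [Finset.sum_congr rfl fun u _ => h1 u]
  rw [Fin.sum_univ_eq_sum_range (fun u : ℕ => ((step^[13] ((List.range (d + 1)).map
    fun v => if v = u then 1 else 0)).map fun a => a * a).sum)]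
  rfl

/-- the numbers of labellings -/
def tab : List ℕ := [
   1, 271443, 1385407029, 874569107071, 154424192534978, 11590981980134136, 471109005712845073,
   12073893516637797647, 216054227528911051598, 2899588931289770319928,
   30747252105854418602807, 267900870986039891665533, 1976658261038065237688965,
   12646583259151935165028659, 71505544338055517905383002, 362852466483982941465664294,
   1673644967862052696066138463, 7091534775916075003484209649, 27850704697432295249191815709,
   102151810477267331847970867095, 352204279293140920190902505756,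
   1147947037059968833062938517298, 3554264799119307289506871036659,
   10498698066409011044245276217901, 29697044023575712453995735900724,
   80710316446302004065351530568318, 211382155607852560741336416052863,
   534907644994676627454203692327477, 1310960487246736777485104974336647]

theorem tr_tab : ∀ d : Fin 29, tr d = tab.getD d 0 := by decide +kernel

/-- the weights -/
def wts : List ℤ := [
   -315404588903, 2248776129600, -15179238874800, 87702269054400, -411104386192500,
   1578640842979200, -5042880470628000, 13584902492304000, -31202822912010750,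
   61635205752120000, -105396201836125200, 156787738268616000, -203606299001605500,
   231316032001824000, -230135848165080000, 200473894401580800, -152704724251204125,
   101450889467928000, -58553445464514000, 29195623777320000, -12481129164804300,
   4528300830768000, -1375331037444000, 343182791952000, -68517397698750, 10524272286528,
   -1167633759600, 83288004800, -2868336900]

theorem wts_pow : ∀ i : Fin 29, ∑ j : Fin 29, wts.getD j 0 * (j : ℤ) ^ (i : ℕ)
    = if i = 1 then 80313433200 else 0 := by decide +kernel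

theorem wts_val : (∑ t : Fin 29, wts.getD t 0 *
    ∑ d : Fin (t + 1), (((t + 1 - d) * tab.getD d 0 : ℕ) : ℤ)) = -679077742525 := by decide +kernel

end eval

/-! ### The linear coefficient -/

theorem coeff_one (f : ℚ[X]) (hf : f.natDegree ≤ 28) : (80313433200 : ℚ) * f.coeff 1
    = ∑ j : Fin 29, (wts.getD j 0 : ℚ) * f.eval ((j : ℕ) : ℚ) := by
  have h1 : ∀ x : ℚ, f.eval x = ∑ i ∈ range 29, f.coeff i * x ^ i := fun x =>
    Polynomial.eval_eq_sum_range' (by omega) x
  simp only [h1, Finset.mul_sum]
  rw [Finset.sum_comm]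
  have h2 : ∀ i ∈ range 29, ∑ j : Fin 29, (wts.getD j 0 : ℚ) * (f.coeff i * ((j : ℕ) : ℚ) ^ i)
      = if i = 1 then 80313433200 * f.coeff 1 else 0 := by
    intro i hi
    have h3 := wts_pow ⟨i, Finset.mem_range.1 hi⟩
    have h4 : (∑ j : Fin 29, (wts.getD j 0 : ℚ) * ((j : ℕ) : ℚ) ^ i)
        = if i = 1 then 80313433200 else 0 := by
      have h5 := congrArg (fun z : ℤ => (z : ℚ)) h3
      simp only [Int.cast_sum, Int.cast_mul, Int.cast_pow, Int.cast_natCast] at h5
      rw [h5]
      by_cases h6 : i = 1
      · subst h6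
        norm_num
      · rw [if_neg h6, if_neg]
        · simp
        · intro h7
          apply h6
          exact congrArg Fin.val h7
    have h5 : ∀ j : Fin 29, (wts.getD j 0 : ℚ) * (f.coeff i * ((j : ℕ) : ℚ) ^ i)
        = f.coeff i * ((wts.getD j 0 : ℚ) * ((j : ℕ) : ℚ) ^ i) := fun j => by ring
    rw [Finset.sum_congr rfl fun j _ => h5 j, ← Finset.mul_sum, h4]
    by_cases h6 : i = 1
    · subst h6
      rw [if_pos rfl, if_pos rfl]
      ring
    · rw [if_neg h6, if_neg h6, mul_zero]
  rw [Finset.sum_congr rfl h2, Finset.sum_ite_eq']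
  simp

theorem card_face : Fintype.card (Face 13) = 28 := by decide +kernel

theorem count (t : Fin 29) : (Nat.card {f : Face 13 → Fin ((t : ℕ) + 1) // Monotone f} : ℤ)
    = ∑ d : Fin (t + 1), (((t + 1 - d) * tab.getD d 0 : ℕ) : ℤ) := by
  rw [card_maps, Nat.cast_sum]
  apply Finset.sum_congr rfl
  intro d _
  have hd := d.2
  have ht := t.2
  rw [card_Cr, cyc_sum (M d) 12, tr_eq, tr_tab ⟨d, by omega⟩]

/-- The order polytope of the face lattice of a convex polygon with 13 vertices is not
Ehrhart-nonnegative: the linear coefficient of its Ehrhart polynomial is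
`-298495711 / 35302608`. -/
theorem result : ∃ f : ℚ[X], IsEhrhartPolynomial (orderPolytope (Face 13)) f ∧
    f.coeff 1 = -298495711 / 35302608 ∧ f.coeff 1 < 0 := by
  obtain ⟨f, hdeg, hf⟩ := exists_poly (P := Face 13)
  rw [card_face] at hdeg
  have h1 := coeff_one f hdeg
  have h2 : f.coeff 1 = -298495711 / 35302608 := by
    have h3 : (∑ j : Fin 29, (wts.getD j 0 : ℚ) * f.eval ((j : ℕ) : ℚ))
        = (((∑ t : Fin 29, wts.getD t 0 *
          ∑ d : Fin (t + 1), (((t + 1 - d) * tab.getD d 0 : ℕ) : ℤ)) : ℤ) : ℚ) := by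
      rw [Int.cast_sum]
      apply Finset.sum_congr rfl
      intro j _
      rw [Int.cast_mul, ← count j, hf]
      norm_cast
    rw [h3, wts_val] at h1
    have h4 : f.coeff 1 = (80313433200 : ℚ)⁻¹ * (80313433200 * f.coeff 1) := by
      rw [← mul_assoc, inv_mul_cancel₀ (by norm_num), one_mul]
    rw [h4, h1]
    norm_num
  refine ⟨f, fun t => ?_, h2, ?_⟩
  · rw [ncard_eq, hf]
  · rw [h2]
    norm_num

end Pool.Agent.Results.MP_a14af5_co.ThirteenGon
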